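import Pool.Agent.Run7.h782.VL.PinA

/-!
Project VL, statement VL-8 (`StmPinV`): the pinching lemma.
-/

set_option autoImplicit false

open MeasureTheory Set Metric Filter Topology
open scoped ContDiff
open H459R3.NS Pool.Agent.W268.NS Pool.Agent.Q67.VD

namespace Pool.Agent.Run7.h782.VL

open Pool.Agent.Q85.VL Pool.Agent.Run7.h32.VL
open Pool.Agent.Q151.CC (WD)

variable {κ ρ R μ η : ℝ} {x : V} {f m : V → ℝ} {W : V → V} {g : V → ℝ}

/-- the scales -/
noncomputable def rr (R : ℝ) (k : ℕ) : ℝ := (1 / 256 : ℝ) ^ k * (R / 4)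

lemma rr_pos (hR : 0 < R) (k : ℕ) : 0 < rr R k := by unfold rr; positivity

lemma rr_succ (R : ℝ) (k : ℕ) : rr R (k + 1) = rr R k / 256 := by
  unfold rr
  rw [pow_succ]
  ring

lemma rr_le (hR : 0 < R) (k : ℕ) : rr R k ≤ R / 4 := by
  unfold rr
  have : (1 / 256 : ℝ) ^ k ≤ 1 := pow_le_one₀ (by norm_num) (by norm_num)
  nlinarith

lemma rr_four (R : ℝ) (k : ℕ) : (1 / 256 : ℝ) ^ k * R = 4 * rr R k := by
  unfold rr
  ring

/-- the integral of the remainder at one scale -/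
lemma m_rr (h : LF κ R x f m W g) (hR : 0 < R) (hK : KS R x m μ) (k : ℕ) :
    ∫ y in closedBall x (rr R k), m y ≤ 4 * μ * rr R k := by
  have h1 := ks_term h hR hK k
  rw [rr_four] at h1
  have h2 : ∫ y in closedBall x (rr R k), m y ≤ ∫ y in closedBall x (4 * rr R k), m y := by
    refine setIntegral_mono_set (int_cont h.mc _ _) (ae_of_all _ fun y => h.m0 y)
      (ae_of_all _ (closedBall_subset_closedBall ?_))
    have := rr_pos hR k
    linarith
  linarith

/-- the flux is almost monotone -/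
lemma chain_rr (h : LF κ R x f m W g) (hκ : 0 < κ) (hκ1 : κ ≤ 1) (hρ : 0 < ρ) (hR : 0 < R)
    (i j : ℕ) :
    AA κ ρ R g x W m (rr R (i + j)) ≤ AA κ ρ R g x W m (rr R i)
      + 262144 / κ * ∑ k ∈ Finset.range j, ((1 / 256 : ℝ) ^ (i + k) * R)⁻¹ *
        ∫ y in closedBall x ((1 / 256 : ℝ) ^ (i + k) * R), m y := by
  induction j with
  | zero => simp
  | succ j ih =>
    rw [Finset.sum_range_succ, mul_add]
    have h2 := rr_pos hR (i + j)
    have h2' := rr_le hR (i + j)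
    have h3 := stmCmp κ ρ R (rr R (i + j)) (rr R (i + j) / 256) x f m W
      g hκ hκ1 hρ h (by positivity) (by linarith) (by linarith)
    have h4 : ∫ y in closedBall x (rr R (i + j)), m y
        ≤ ∫ y in closedBall x (4 * rr R (i + j)), m y := by
      refine setIntegral_mono_set (int_cont h.mc _ _) (ae_of_all _ fun y => h.m0 y)
        (ae_of_all _ (closedBall_subset_closedBall ?_))
      linarith
    have h5 : 256 / (κ * (rr R (i + j) / 256)) * ∫ y in closedBall x (rr R (i + j)), m y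
        ≤ 256 / (κ * (rr R (i + j) / 256)) * ∫ y in closedBall x (4 * rr R (i + j)), m y := by
      gcongr
    have h6 : 256 / (κ * (rr R (i + j) / 256)) = 262144 / κ * (4 * rr R (i + j))⁻¹ := by
      field_simp
      norm_num
    rw [h6] at h3 h5
    rw [← add_assoc, rr_succ, rr_four]
    linarith

/-- the flux is bounded from below near a concentration -/
lemma flux_lo (h : LF κ R x f m W g) (hκ : 0 < κ) (hκ1 : κ ≤ 1) (hρ : 0 < ρ) (hR : 0 < R)
    (hK : KS R x m μ) (hη : 0 < η) (hμ : μ ≤ κ ^ 2 / 2 ^ 50 * η)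
    (hc : η * ρ ≤ ∫ y in closedBall x ρ, f y) (k : ℕ) (hk : 128 / κ * ρ ≤ rr R k) :
    κ * η / 2 ^ 24 ≤ AA κ ρ R g x W m (rr R k) := by
  have hμ0 := ks_mu hK
  have hk' : 512 * ρ / (κ * R) ≤ (1 / 256 : ℝ) ^ k := by
    unfold rr at hk
    rw [div_mul_eq_mul_div, div_le_iff₀ hκ] at hk
    rw [div_le_iff₀ (by positivity)]
    linarith
  obtain ⟨j, hj1, hj2⟩ := exists_nat_pow_near_of_lt_one (x := 512 * ρ / (κ * R)) (y := (1 / 256 : ℝ))
    (by positivity) (hk'.trans (pow_le_one₀ (by norm_num) (by norm_num))) (by norm_num) (by norm_num)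
  have hkj : k ≤ j := by
    by_contra hcc
    push Not at hcc
    have h1 : (1 / 256 : ℝ) ^ k ≤ (1 / 256 : ℝ) ^ (j + 1) :=
      pow_le_pow_of_le_one (by norm_num) (by norm_num) hcc
    linarith
  obtain ⟨i, hi⟩ := Nat.exists_eq_add_of_le hkj
  -- the scale `j`
  have hj3 : 128 / κ * ρ ≤ rr R j := by
    unfold rr
    rw [div_le_iff₀ (by positivity)] at hj2
    rw [div_mul_eq_mul_div, div_le_iff₀ hκ]
    linarith
  have hj4 : κ * rr R j ≤ 32768 * ρ := by
    unfold rr
    rw [lt_div_iff₀ (by positivity), pow_succ] at hj1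
    linarith
  have hjp := rr_pos hR j
  have hjR := rr_le hR j
  have hA := AA_nn (R := R) (x := x) (f := f) (m := m) (W := W) (g := g) h hκ hρ hjp
  have h1 := stmLB κ ρ R (rr R j) x f m W g hκ hκ1 hρ h hj3 (by linarith)
  have h2 := m_rr h hR hK j
  have h3 : (κ * rr R j / 8) ^ 2 * AA κ ρ R g x W m (rr R j)
      ≤ (32768 * ρ / 8) ^ 2 * AA κ ρ R g x W m (rr R j) := by gcongr
  have h4 : κ * rr R j / 4 * ∫ y in closedBall x (rr R j), m y
      ≤ 2 ^ 30 * (μ / κ) * ρ ^ 2 := by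
    calc κ * rr R j / 4 * ∫ y in closedBall x (rr R j), m y
        ≤ κ * rr R j / 4 * (4 * μ * rr R j) := by gcongr
      _ = (κ * rr R j) ^ 2 * (μ / κ) := by field_simp
      _ ≤ (32768 * ρ) ^ 2 * (μ / κ) := by gcongr
      _ = _ := by ring
  have h5 : 2 * κ * ρ * (η * ρ) ≤ 2 * κ * ρ * ∫ y in closedBall x ρ, f y := by gcongr
  have h6 : ρ ^ 2 * (2 * κ * η) ≤ ρ ^ 2 * (2 ^ 24 * AA κ ρ R g x W m (rr R j)
      + 2 ^ 30 * (μ / κ)) := by
    have e : (32768 * ρ / 8) ^ 2 = 2 ^ 24 * ρ ^ 2 := by ring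
    rw [e] at h3
    linarith
  have h7 : 2 * κ * η ≤ 2 ^ 24 * AA κ ρ R g x W m (rr R j) + 2 ^ 30 * (μ / κ) :=
    le_of_mul_le_mul_left h6 (by positivity)
  -- the chain
  have h8 := chain_rr (ρ := ρ) h hκ hκ1 hρ hR k i
  rw [← hi] at h8
  have h9 : ∑ l ∈ Finset.range i, ((1 / 256 : ℝ) ^ (k + l) * R)⁻¹ *
        ∫ y in closedBall x ((1 / 256 : ℝ) ^ (k + l) * R), m y ≤ μ := by
    have e1 := hK (k + i)
    rw [Finset.sum_range_add] at e1
    have e2 : 0 ≤ ∑ l ∈ Finset.range k, ((1 / 256 : ℝ) ^ l * R)⁻¹ *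
        ∫ y in closedBall x ((1 / 256 : ℝ) ^ l * R), m y :=
      Finset.sum_nonneg fun l _ => mul_nonneg (inv_nonneg.2 (sc_pos hR l).le) (m_int_nn h x _)
    linarith
  have h10 : 262144 / κ * ∑ l ∈ Finset.range i, ((1 / 256 : ℝ) ^ (k + l) * R)⁻¹ *
        ∫ y in closedBall x ((1 / 256 : ℝ) ^ (k + l) * R), m y ≤ 262144 * (μ / κ) := by
    calc _ ≤ 262144 / κ * μ := by gcongr
      _ = _ := by ring
  have h11 : μ / κ ≤ κ * η / 2 ^ 50 := by
    rw [div_le_iff₀ hκ]
    calc μ ≤ κ ^ 2 / 2 ^ 50 * η := hμ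
      _ = _ := by ring
  have h12 : 0 < κ * η := by positivity
  norm_num at h7 h11 ⊢
  linarith

theorem stmPinV : StmPinV := by
  intro κ hκ hκ1
  refine ⟨κ / 524288, κ ^ 2 / 2 ^ 50, by positivity, by linarith, by positivity, by
    rw [div_le_one (by positivity)]
    nlinarith, ?_⟩
  intro K η τ hK hη hη1 hτ hτ1
  obtain ⟨N₀, hN₀⟩ := exists_nat_ge (2 * (2 * K + 1) / (κ * τ))
  have hN₀0 : (0 : ℝ) < N₀ := lt_of_lt_of_le (by positivity) hN₀
  obtain ⟨N₁, hN₁⟩ := exists_pow_lt_of_lt_one (show 0 < κ / 512 by positivity)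
    (show (1 / 256 : ℝ) < 1 by norm_num)
  refine ⟨N₀ + N₁, ?_⟩
  intro R ρ x f m W g hR h hf hKS hρ hρN hc
  obtain ⟨μ, hμdef⟩ : ∃ μ, μ = κ ^ 2 / 2 ^ 50 * η * τ := ⟨_, rfl⟩
  rw [← hμdef] at hKS
  have hμ0 := ks_mu hKS
  have hμ : μ ≤ κ ^ 2 / 2 ^ 50 * η := by
    rw [hμdef]
    have : 0 ≤ κ ^ 2 / 2 ^ 50 * η := by positivity
    nlinarith
  have hμ1 : μ ≤ 1 := by
    refine hμ.trans ?_
    have h1 : κ ^ 2 ≤ 1 := pow_le_one₀ hκ.le hκ1
    have h2 : κ ^ 2 / 2 ^ 50 * η ≤ 1 / 2 ^ 50 * 1 := by gcongr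
    norm_num at h2 ⊢
    linarith
  -- the scales
  have hscale : ∀ k ≤ N₀, 128 / κ * ρ ≤ rr R k := by
    intro k hk
    have h1 : (1 / 256 : ℝ) ^ N₀ ≤ (1 / 256 : ℝ) ^ k :=
      pow_le_pow_of_le_one (by norm_num) (by norm_num) hk
    rw [div_mul_eq_mul_div, div_le_iff₀ hκ]
    calc 128 * ρ ≤ 128 * ((1 / 256) ^ (N₀ + N₁) * R) := by gcongr
      _ = 128 * ((1 / 256) ^ N₀ * ((1 / 256) ^ N₁ * R)) := by rw [pow_add]; ring
      _ ≤ 128 * ((1 / 256) ^ k * (κ / 512 * R)) := by gcongr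
      _ = rr R k * κ := by unfold rr; ring
  obtain ⟨A, hA⟩ : ∃ A : ℕ → ℝ, A = fun k => AA κ ρ R g x W m (rr R k) := ⟨_, rfl⟩
  have hAn : ∀ k, 0 ≤ A k := fun k => by
    rw [hA]; exact AA_nn h hκ hρ (rr_pos hR k)
  have hAlo : ∀ k ≤ N₀, κ * η / 2 ^ 24 ≤ A k := fun k hk => by
    rw [hA]; exact flux_lo h hκ hκ1 hρ hR hKS hη hμ hc k (hscale k hk)
  have hfn : ∀ y ∈ closedBall x R, 0 ≤ f y := fun y hy => fnn h hy
  -- the bound of `A 0`
  have hA0 : A 0 ≤ 512 / κ * (2 * K + 1) := by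
    have e0 : rr R 0 = R / 4 := by unfold rr; simp
    have h1 := stmUB κ ρ R (R / 4) x f m W g hκ hκ1 hρ h (by positivity) (by linarith)
    have h2 : ∫ y in closedBall x (R / 4), (2 * f y + m y) ≤ ∫ y in closedBall x R,
        (2 * f y + m y) := by
      refine setIntegral_mono_set (int_cont ((h.fc.const_mul 2).add h.mc) _ _) ?_
        (ae_of_all _ (closedBall_subset_closedBall (by linarith)))
      rw [Filter.EventuallyLE, ae_restrict_iff' isClosed_closedBall.measurableSet]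
      refine ae_of_all _ fun y hy => ?_
      have := hfn y hy
      have := h.m0 y
      simp only [Pi.zero_apply]
      positivity
    have h3 : ∫ y in closedBall x R, (2 * f y + m y)
        = 2 * (∫ y in closedBall x R, f y) + ∫ y in closedBall x R, m y := by
      rw [integral_add ((int_cont h.fc x R).const_mul 2) (int_cont h.mc x R), integral_const_mul]
    have h4 := ks_term h hR hKS 0
    simp only [pow_zero, one_mul] at h4
    have h5 : ∫ y in closedBall x (R / 4), (2 * f y + m y) ≤ (2 * K + 1) * R := by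
      rw [h3] at h2
      nlinarith
    rw [hA]
    simp only
    rw [e0]
    calc AA κ ρ R g x W m (R / 4) ≤ 128 / (κ * (R / 4)) *
          ∫ y in closedBall x (R / 4), (2 * f y + m y) := h1
      _ ≤ 128 / (κ * (R / 4)) * ((2 * K + 1) * R) := by gcongr
      _ = _ := by
        field_simp
        norm_num
  -- the scale with a small difference
  obtain ⟨k, hkN, hk⟩ : ∃ k < N₀, A k - A (k + 1) ≤ A 0 / N₀ := by
    by_contra hcc
    push Not at hcc
    have h1 : ∑ k ∈ Finset.range N₀, (A k - A (k + 1)) = A 0 - A N₀ := Finset.sum_range_sub' A N₀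
    have hN0 : 0 < N₀ := by exact_mod_cast hN₀0
    have h2 : ∑ k ∈ Finset.range N₀, A 0 / (N₀ : ℝ) < ∑ k ∈ Finset.range N₀, (A k - A (k + 1)) :=
      Finset.sum_lt_sum_of_nonempty ⟨0, Finset.mem_range.2 hN0⟩ fun k hk =>
        hcc k (Finset.mem_range.1 hk)
    rw [h1, Finset.sum_const, Finset.card_range, nsmul_eq_mul] at h2
    have h3 : (N₀ : ℝ) * (A 0 / N₀) = A 0 := by field_simp
    rw [h3] at h2
    linarith [hAn N₀]
  have hk2 : A k - A (k + 1) ≤ 256 * τ := by
    refine hk.trans ?_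
    rw [div_le_iff₀ hN₀0]
    rw [div_le_iff₀ (by positivity)] at hN₀
    calc A 0 ≤ 512 / κ * (2 * K + 1) := hA0
      _ = 256 / κ * (2 * (2 * K + 1)) := by ring
      _ ≤ 256 / κ * (N₀ * (κ * τ)) := by gcongr
      _ = _ := by field_simp
  refine ⟨k, by omega, ?_⟩
  intro s hs1 hs2
  have ek : (1 / 256 : ℝ) ^ k * (R / 4) = rr R k := rfl
  rw [ek] at hs1 hs2 ⊢
  have hq0 := rr_pos hR k
  have hqR := rr_le hR k
  have hlo := hAlo (k + 1) hkN
  have hm := m_rr h hR hKS k
  have hμκ : μ / κ ≤ κ * η / 2 ^ 50 := by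
    rw [div_le_iff₀ hκ]
    calc μ ≤ κ ^ 2 / 2 ^ 50 * η := hμ
      _ = _ := by ring
  have hκη : 0 < κ * η := by positivity
  have herr : 65536 / (κ * rr R k) * ∫ y in closedBall x (rr R k), m y ≤ 262144 * (μ / κ) := by
    calc 65536 / (κ * rr R k) * ∫ y in closedBall x (rr R k), m y
        ≤ 65536 / (κ * rr R k) * (4 * μ * rr R k) := by gcongr
      _ = _ := by
        field_simp
        ring
  have hAk1 : A (k + 1) = AA κ ρ R g x W m (rr R k / 256) := by
    rw [hA]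
    simp only
    rw [rr_succ]
  have hρk : ρ ≤ rr R k / 64 := by
    have h1 := hscale k hkN.le
    have h2 : 128 * ρ ≤ 128 / κ * ρ := by
      gcongr
      rw [le_div_iff₀ hκ]
      linarith
    linarith
  refine ⟨?_, ?_⟩
  · obtain ⟨z, hz1, hz2⟩ := surf_point h hκ hκ1 hρ hq0 (by linarith) hs1 hs2 (by
      rw [← hAk1]
      norm_num at hμκ hlo ⊢
      linarith)
    refine ⟨z, hz1, ?_⟩
    have h1 := stmTF κ ρ R (rr R k) s x z f m W g hκ hκ1 hρ h hq0 (by linarith) hρk hs1 hs2 hz1 hz2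
    rw [← hAk1] at h1
    have h2 : AA κ ρ R g x W m (rr R k) = A k := by rw [hA]
    rw [h2] at h1
    have h3 : rr R k / 512 * (A k - A (k + 1)) ≤ rr R k / 512 * (256 * τ) := by gcongr
    have h4 : 1024 / κ * ∫ y in closedBall x (rr R k), m y ≤ rr R k * (τ / 2) := by
      calc 1024 / κ * ∫ y in closedBall x (rr R k), m y ≤ 1024 / κ * (4 * μ * rr R k) := by gcongr
        _ = rr R k * (4096 / 2 ^ 50 * κ * η * τ) := by
          rw [hμdef]
          field_simp
          norm_num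
        _ ≤ rr R k * (4096 / 2 ^ 50 * 1 * 1 * τ) := by gcongr
        _ ≤ rr R k * (τ / 2) := by
          gcongr
          norm_num
          linarith
    linarith
  · intro w hw hws
    have h1 := stmFC κ ρ R (rr R k / 256) s w x f m W g hκ hκ1 hρ h (by positivity) (by linarith) hw
      hws (by linarith)
    rw [← hAk1] at h1
    have h2 : ∫ y in closedBall x (s + w), m y ≤ ∫ y in closedBall x (rr R k), m y := by
      refine setIntegral_mono_set (int_cont h.mc x _) (ae_of_all _ fun y => h.m0 y)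
        (ae_of_all _ (closedBall_subset_closedBall (by linarith)))
    have h3 : 256 / (κ * (rr R k / 256)) * ∫ y in closedBall x (s + w), m y
        ≤ 65536 / (κ * rr R k) * ∫ y in closedBall x (rr R k), m y := by
      have e : 256 / (κ * (rr R k / 256)) = 65536 / (κ * rr R k) := by
        field_simp
        norm_num
      rw [e]
      gcongr
    have hsub : Shell x s w ⊆ closedBall x R := shell_sub x (by linarith)
    have h4 : ∫ y in Shell x s w ∩ {y | 0 < uu κ ρ g x y}, f y ≤ ∫ y in Shell x s w, f y := by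
      refine setIntegral_mono_set ((int_cont h.fc x R).mono_set hsub) ?_
        (ae_of_all _ inter_subset_left)
      rw [Filter.EventuallyLE, ae_restrict_iff' (shell_closed x s w).measurableSet]
      exact ae_of_all _ fun y hy => hfn y (hsub hy)
    have h5 : κ * η / 2 ^ 25 ≤ 2 / w * ∫ y in Shell x s w, f y := by
      have h6 : 2 / w * (∫ y in Shell x s w ∩ {y | 0 < uu κ ρ g x y}, f y)
          ≤ 2 / w * ∫ y in Shell x s w, f y := by gcongr
      norm_num at hμκ hlo ⊢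
      linarith
    rw [div_mul_eq_mul_div, le_div_iff₀ hw] at h5
    have h7 : κ ^ 2 / 2 ^ 50 * η * w ≤ κ * η / 2 ^ 26 * w := by
      have e1 : κ ^ 2 ≤ κ := by nlinarith
      calc κ ^ 2 / 2 ^ 50 * η * w ≤ κ / 2 ^ 26 * η * w := by
            gcongr
            · norm_num
            · norm_num
        _ = _ := by ring
    linarith

end Pool.Agent.Run7.h782.VL
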