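import Pool.Agent.Run7.h782.VL.TF
import Pool.Agent.Run7.h32.VL.FC
import Pool.Agent.Run7.h32.VL.Mor

/-!
Project VL, towards statement VL-8 (`StmPinV`): a point with `u = - 4 β r` on the surface.
-/

set_option autoImplicit false

open MeasureTheory Set Metric Filter Topology
open scoped ContDiff
open H459R3.NS Pool.Agent.W268.NS Pool.Agent.Q67.VD

namespace Pool.Agent.Run7.h782.VL

open Pool.Agent.Q85.VL Pool.Agent.Run7.h32.VL
open Pool.Agent.Q151.CC (WD)

variable {κ ρ R : ℝ} {x : V} {f m : V → ℝ} {W : V → V} {g : V → ℝ}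

/-- the projection to the surface of a cube -/
lemma proj_surf {x y : V} {s w : ℝ} (hs : 0 < s) (hws : w < s) (hy : |‖y - x‖ - s| ≤ w) :
    ∃ z, ‖z - x‖ = s ∧ ‖y - z‖ ≤ w := by
  have h1 := abs_le.1 hy
  have h2 : 0 < ‖y - x‖ := by linarith [h1.1]
  refine ⟨x + (s / ‖y - x‖) • (y - x), ?_, ?_⟩
  · rw [add_sub_cancel_left, norm_smul, Real.norm_eq_abs, abs_of_pos (by positivity)]
    field_simp
  · have e : y - (x + (s / ‖y - x‖) • (y - x)) = (1 - s / ‖y - x‖) • (y - x) := by
      rw [sub_smul, one_smul]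
      abel
    rw [e, norm_smul, Real.norm_eq_abs]
    have e2 : |1 - s / ‖y - x‖| * ‖y - x‖ = |‖y - x‖ - s| := by
      rw [← abs_of_pos h2, ← abs_mul, abs_of_pos h2]
      congr 1
      field_simp
    rw [e2]
    exact hy

/-- `v` has Lipschitz constant `3 / 2` -/
lemma vv_lip (h : LF κ R x f m W g) (hκ : 0 < κ) (hκ1 : κ ≤ 1) (hρ : 0 < ρ) (y z : V) :
    |vv κ ρ g x y - vv κ ρ g x z| ≤ 3 / 2 * len (y - z) := by
  have h1 := h.lip y z
  have h2 := ds_lip x hρ y z
  have h3 := len_nonneg (y - z)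
  have e : vv κ ρ g x y - vv κ ρ g x z = (g y - g z) + κ / 2 * (ds x ρ y - ds x ρ z) := by
    unfold vv
    ring
  rw [e]
  calc |(g y - g z) + κ / 2 * (ds x ρ y - ds x ρ z)|
      ≤ |g y - g z| + |κ / 2 * (ds x ρ y - ds x ρ z)| := abs_add_le _ _
    _ = |g y - g z| + κ / 2 * |ds x ρ y - ds x ρ z| := by
        rw [abs_mul, abs_of_pos (by positivity : 0 < κ / 2)]
    _ ≤ len (y - z) + 1 / 2 * len (y - z) := by
        gcongr
    _ = 3 / 2 * len (y - z) := by ring

/-- If `u > - 4 β r` on the surface of the cube, then the flux through the centre is small. -/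
lemma flux_small (h : LF κ R x f m W g) (hκ : 0 < κ) (hκ1 : κ ≤ 1) (hρ : 0 < ρ) {r s : ℝ}
    (hr : 0 < r) (hrR : r ≤ R) (hs1 : r / 64 ≤ s) (hs2 : s ≤ r / 32)
    (hall : ∀ z, ‖z - x‖ = s → -(4 * (κ / 65536) * r) < uu κ ρ g x z) :
    AA κ ρ R g x W m (r / 256) ≤ 65536 / (κ * r) * ∫ y in closedBall x r, m y := by
  obtain ⟨r', hr'⟩ : ∃ r', r' = r / 256 := ⟨_, rfl⟩
  rw [← hr']
  have hr'0 : 0 < r' := by rw [hr']; positivity
  have hκr : 0 < κ * r := by positivity
  have hκr1 : κ * r ≤ r := by nlinarith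
  have hκr' : κ * r' = κ * r / 256 := by rw [hr']; ring
  have hs : 0 < s := by linarith
  obtain ⟨w, hw⟩ : ∃ w, w = κ * r / 1024 := ⟨_, rfl⟩
  have hw0 : 0 < w := by rw [hw]; positivity
  have hws : w < s := by rw [hw]; linarith
  -- the functions
  obtain ⟨qX, hqX⟩ : ∃ qX : V → ℝ, qX = fun y => (vv κ ρ g x y + -(κ * r / 256)) / (κ * r / 256) :=
    ⟨_, rfl⟩
  have cT : ContDiff ℝ 1 fun y => stp (qT κ ρ g x r' y) := stp_c1.comp (qT_c1 h.gs κ hρ x r')
  have cP : ContDiff ℝ 1 fun y => stp (qP κ ρ g x r' y) := stp_c1.comp (qP_c1 h.gs κ hρ x r')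
  have cX : ContDiff ℝ 1 fun y => stp (qX y) := by
    rw [hqX]; exact stp_cd (vv_c1 h.gs κ hρ x) _ _
  have cC := ch_c1 x s w
  have dX : ∀ y, HasFDerivAt (fun y => stp (qX y))
      ((stp' (qX y) / (κ * r / 256)) • fderiv ℝ (vv κ ρ g x) y) y := by
    intro y; rw [hqX]; exact stp_hd (vv_c1 h.gs κ hρ x) _ _ y
  have cX' : Continuous fun y => stp' (qX y) := by
    rw [hqX]
    exact stp'_cont.comp (((vv_c1 h.gs κ hρ x).add contDiff_const).div_const _).continuous
  have cT' : Continuous fun y => stp' (qT κ ρ g x r' y) :=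
    stp'_cont.comp (qT_c1 h.gs κ hρ x r').continuous
  have cP' : Continuous fun y => stp' (qP κ ρ g x r' y) :=
    stp'_cont.comp (qP_c1 h.gs κ hρ x r').continuous
  -- facts on the cut-off functions
  have hX1 : ∀ y, y ∈ Shell x s w → stp (qX y) = 1 := by
    intro y hy
    obtain ⟨z, hz1, hz2⟩ := proj_surf hs hws hy
    have h1 := hall z hz1
    have h2 := norm_le_ds x ρ z
    rw [hz1] at h2
    have h3 := (abs_le.1 (vv_lip h hκ hκ1 hρ y z)).1
    have h4 := (len_le_two (y - z)).trans (by linarith : 2 * ‖y - z‖ ≤ 2 * w)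
    have h5 : κ * (r / 64) ≤ κ * ds x ρ z := by
      gcongr
      linarith
    have h6 := vu κ ρ g x z
    apply stp_right
    rw [hqX]
    simp only
    rw [le_div_iff₀ (by positivity)]
    rw [hw] at h4
    linarith
  -- on the support of the flux
  have hin : ∀ y, stp (qT κ ρ g x r' y) ≠ 0 → stp' (qP κ ρ g x r' y) ≠ 0 →
      ch x s w y = 1 ∧ stp (qX y) = 0 := by
    intro y h1 h2
    have h3 := qT_pos hκ hr'0 (stp_pos h1)
    have h4 := qP_lt hκ hr'0 (stp'_supp h2).2
    constructor
    · refine ch_one hw0 ?_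
      have h5 := in_ball' hκ hr'0 h3 h4
      rw [hr'] at h5
      rw [hw]
      linarith
    · apply stp_left
      rw [hqX]
      simp only
      apply div_nonpos_of_nonpos_of_nonneg _ (by positivity)
      rw [vu]
      have h5 := uw κ ρ g x y
      rw [hκr'] at h3 h4
      linarith
  -- the test function
  set F : V → ℝ := fun y => (1 - stp (qX y)) * (1 - stp (qT κ ρ g x r' y) * stp (qP κ ρ g x r' y)) *
    ch x s w y with hF
  have hFc : ContDiff ℝ 1 F :=
    ((contDiff_const.sub cX).mul (contDiff_const.sub (cT.mul cP))).mul cC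
  have hFd : ∀ y, fderiv ℝ F y (W y) = -(ch x s w y *
      ((1 - stp (qT κ ρ g x r' y) * stp (qP κ ρ g x r' y)) *
          (stp' (qX y) / (κ * r / 256) * fderiv ℝ (vv κ ρ g x) y (W y))
        + (1 - stp (qX y)) *
          (stp (qT κ ρ g x r' y) *
            (stp' (qP κ ρ g x r' y) / (κ * r' / 64) * fderiv ℝ (uu κ ρ g x) y (W y)) +
            stp (qP κ ρ g x r' y) *
            (stp' (qT κ ρ g x r' y) / (κ * r' / 16) * fderiv ℝ (ww κ ρ g x) y (W y))))) := by
    intro y
    have h1 : HasFDerivAt F _ y := (((dX y).const_sub 1).fun_mul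
      (((TT_hd h.gs κ hρ x r' y).fun_mul (PS_hd h.gs κ hρ x r' y)).const_sub 1)).fun_mul
        (cC.differentiable one_ne_zero y).hasFDerivAt
    have h2 : (1 - stp (qX y)) * fderiv ℝ (ch x s w) y (W y) = 0 := by
      by_cases hc : fderiv ℝ (ch x s w) y (W y) = 0
      · rw [hc, mul_zero]
      · rw [hX1 y (ch_fd_supp hw0 hs hc)]
        ring
    rw [h1.fderiv]
    simp only [add_apply, smul_apply, neg_apply, smul_eq_mul]
    linear_combination (1 - stp (qT κ ρ g x r' y) * stp (qP κ ρ g x r' y)) * h2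
  have hswR : s + w ≤ r := by rw [hw]; linarith
  have hFs : ∀ y, F y ≠ 0 → y ∈ closedBall x (s + w) := by
    intro y hy
    rw [mem_closedBall, dist_eq_norm]
    exact ch_supp hw0 hs (right_ne_zero_of_mul hy)
  have h0 : ∫ y in closedBall x R, fderiv ℝ F y (W y) = 0 :=
    h.wd.div F hFc (ts_sub (hswR.trans hrR) hFs)
  -- the error
  set E : V → ℝ := fun y => ch x s w y *
      ((1 - stp (qT κ ρ g x r' y) * stp (qP κ ρ g x r' y)) *
          (stp' (qX y) / (κ * r / 256) * m y)
        + (1 - stp (qX y)) *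
          (stp (qT κ ρ g x r' y) * (stp' (qP κ ρ g x r' y) / (κ * r' / 64) * m y) +
            stp (qP κ ρ g x r' y) * (stp' (qT κ ρ g x r' y) / (κ * r' / 16) * m y))) with hE
  have kT := cT.continuous
  have kP := cP.continuous
  have kX := cX.continuous
  have kC := cC.continuous
  have hEc : Continuous E := by
    refine kC.mul (((continuous_const.sub (kT.mul kP)).mul ((cX'.div_const _).mul h.mc)).add
      ((continuous_const.sub kX).mul
        ((kT.mul ((cP'.div_const _).mul h.mc)).add (kP.mul ((cT'.div_const _).mul h.mc)))))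
  have hE1 : ∫ y in closedBall x R, E y ≤ ∫ y in closedBall x r, 65536 / (κ * r) * m y := by
    refine int_le_small hEc (h.mc.const_mul _) hrR ?_ ?_
    · intro y _
      have a1 := stp_nn (qX y)
      have a2 := stp_le (qX y)
      have a5 := stp_nn (qT κ ρ g x r' y)
      have a6 := stp_le (qT κ ρ g x r' y)
      have a7 := stp_nn (qP κ ρ g x r' y)
      have a8 := stp_le (qP κ ρ g x r' y)
      have d1 := stp'_nn (qX y)
      have d2 := stp'_le (qX y)
      have d5 := stp'_nn (qT κ ρ g x r' y)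
      have d6 := stp'_le (qT κ ρ g x r' y)
      have d7 := stp'_nn (qP κ ρ g x r' y)
      have d8 := stp'_le (qP κ ρ g x r' y)
      have c1 := ch_nn x s w y
      have c2 := ch_le x s w y
      have hm := h.m0 y
      have b3 : stp (qT κ ρ g x r' y) * stp (qP κ ρ g x r' y) ≤ 1 := mul_le_one₀ a6 a7 a8
      have b4 : 0 ≤ stp (qT κ ρ g x r' y) * stp (qP κ ρ g x r' y) := mul_nonneg a5 a7
      have c3 : 0 ≤ 1 - stp (qT κ ρ g x r' y) * stp (qP κ ρ g x r' y) := by linarith
      have c4 : 0 ≤ 1 - stp (qX y) := by linarith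
      have e1 : E y ≤ 1 * (1 * (2 / (κ * r / 256) * m y)
          + 1 * (1 * (2 / (κ * r' / 64) * m y) + 1 * (2 / (κ * r' / 16) * m y))) := by
        simp only [hE]
        gcongr
        · linarith
        · linarith
      refine e1.trans ?_
      rw [hκr']
      have e2 : 1 * (1 * (2 / (κ * r / 256) * m y)
          + 1 * (1 * (2 / (κ * r / 256 / 64) * m y) + 1 * (2 / (κ * r / 256 / 16) * m y)))
          = 41472 / (κ * r) * m y := by
        field_simp
        ring
      rw [e2]
      gcongr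
      norm_num
    · intro y _ hy2
      apply le_of_eq
      by_contra hc
      apply hy2
      have h1 := ch_supp hw0 hs (left_ne_zero_of_mul hc)
      rw [mem_closedBall, dist_eq_norm]
      linarith
  -- the pointwise inequality
  have key : ∀ y ∈ closedBall x R, Pool.Agent.Q85.VL.pr κ ρ g x W m r' y
      ≤ -fderiv ℝ F y (W y) + E y := by
    intro y hy
    have hin' := hin y
    rw [hFd, pr_eq]
    simp only [hE]
    have a1 := stp_nn (qX y)
    have a2 := stp_le (qX y)
    have a5 := stp_nn (qT κ ρ g x r' y)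
    have a6 := stp_le (qT κ ρ g x r' y)
    have a7 := stp_nn (qP κ ρ g x r' y)
    have a8 := stp_le (qP κ ρ g x r' y)
    have d1 := stp'_nn (qX y)
    have d5 := stp'_nn (qT κ ρ g x r' y)
    have d7 := stp'_nn (qP κ ρ g x r' y)
    have c0 := ch_nn x s w y
    have hm := h.m0 y
    have p1 := ww_pos h hκ hρ hy
    have p2 := uu_pos h hκ hρ hy
    have p3 := vv_pos h hκ hρ hy
    have b3 : stp (qT κ ρ g x r' y) * stp (qP κ ρ g x r' y) ≤ 1 := mul_le_one₀ a6 a7 a8
    have c1 : 0 ≤ 1 - stp (qX y) := by linarith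
    have c2 : 0 ≤ 1 - stp (qT κ ρ g x r' y) * stp (qP κ ρ g x r' y) := by linarith
    generalize fderiv ℝ (uu κ ρ g x) y (W y) = U at *
    generalize fderiv ℝ (ww κ ρ g x) y (W y) = Z at *
    generalize fderiv ℝ (vv κ ρ g x) y (W y) = Q at *
    generalize stp (qX y) = X at *
    generalize stp (qT κ ρ g x r' y) = T' at *
    generalize stp (qP κ ρ g x r' y) = P' at *
    generalize stp' (qX y) = dX at *
    generalize stp' (qT κ ρ g x r' y) = dT' at *
    generalize stp' (qP κ ρ g x r' y) = dP' at *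
    generalize ch x s w y = C at *
    have g1 : T' * (dP' / (κ * r' / 64) * (U + m y))
        = C * ((1 - X) * (T' * (dP' / (κ * r' / 64) * (U + m y)))) := by
      by_cases e1 : T' = 0
      · rw [e1]; ring
      · by_cases e2 : dP' = 0
        · rw [e2]; ring
        · obtain ⟨e3, e4⟩ := hin' e1 e2
          rw [e3, e4]; ring
    have g3 : 0 ≤ C * ((1 - T' * P') * (dX / (κ * r / 256) * (Q + m y))) := by positivity
    have g4 : 0 ≤ C * ((1 - X) * (P' * (dT' / (κ * r' / 16) * (Z + m y)))) := by positivity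
    rw [g1]
    linarith [g3, g4]
  have i1 : IntegrableOn (fun y => fderiv ℝ F y (W y)) (closedBall x R) :=
    int_cont (fdW_cont hFc h.wd.cont) x R
  have i3 := int_cont (pr_cont h hρ r') x R
  have i4 := int_cont hEc x R
  have h1 : AA κ ρ R g x W m r' ≤ ∫ y in closedBall x R, (-fderiv ℝ F y (W y) + E y) :=
    setIntegral_mono_on i3 (i1.neg.add i4) isClosed_closedBall.measurableSet key
  have h2 : ∫ y in closedBall x R, (-fderiv ℝ F y (W y) + E y)
      = ∫ y in closedBall x R, E y := by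
    have i1' : IntegrableOn (fun y => -fderiv ℝ F y (W y)) (closedBall x R) := i1.neg
    rw [integral_add i1' i4, integral_neg, h0, neg_zero, zero_add]
  rw [h2] at h1
  rw [integral_const_mul] at hE1
  linarith

/-- a point of the surface with `u = - 4 β r` -/
lemma surf_point (h : LF κ R x f m W g) (hκ : 0 < κ) (hκ1 : κ ≤ 1) (hρ : 0 < ρ) {r s : ℝ}
    (hr : 0 < r) (hrR : r ≤ R) (hs1 : r / 64 ≤ s) (hs2 : s ≤ r / 32)
    (hA : 65536 / (κ * r) * ∫ y in closedBall x r, m y < AA κ ρ R g x W m (r / 256)) :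
    ∃ z, ‖z - x‖ = s ∧ uu κ ρ g x z = -(4 * (κ / 65536) * r) := by
  have hs : 0 < s := by linarith
  have hκr : 0 < κ * r := by positivity
  have hκr1 : κ * r ≤ r := by nlinarith
  -- a point below
  obtain ⟨z₁, hz1, hu1⟩ : ∃ z, ‖z - x‖ = s ∧ uu κ ρ g x z ≤ -(4 * (κ / 65536) * r) := by
    by_contra hc
    push Not at hc
    have := flux_small h hκ hκ1 hρ hr hrR hs1 hs2 hc
    linarith
  -- a point above
  obtain ⟨z₂, hz2, hu2⟩ : ∃ z, ‖z - x‖ = s ∧ -(4 * (κ / 65536) * r) ≤ uu κ ρ g x z := by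
    by_contra hc
    push Not at hc
    obtain ⟨w, hw⟩ : ∃ w, w = κ * r / 65536 := ⟨_, rfl⟩
    have hw0 : 0 < w := by rw [hw]; positivity
    have hws : w ≤ s / 4 := by rw [hw]; linarith
    have h1 := stmFC κ ρ R (r / 256) s w x f m W g hκ hκ1 hρ h (by positivity) (by linarith) hw0 hws
      (by linarith)
    have h2 : Shell x s w ∩ {y | 0 < uu κ ρ g x y} = ∅ := by
      rw [Set.eq_empty_iff_forall_notMem]
      rintro y ⟨hy1, hy2⟩
      have hy2' : 0 < uu κ ρ g x y := hy2
      obtain ⟨z, hz1, hz2⟩ := proj_surf hs (by linarith) hy1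
      have h3 := hc z hz1
      have h4 := (abs_le.1 (uu_lip h hκ hκ1 hρ y z)).2
      have h5 := (len_le_two (y - z)).trans (by linarith : 2 * ‖y - z‖ ≤ 2 * w)
      rw [hw] at h5
      linarith
    rw [h2] at h1
    simp only [Measure.restrict_empty, integral_zero_measure, mul_zero, zero_add] at h1
    have h3 : ∫ y in closedBall x (s + w), m y ≤ ∫ y in closedBall x r, m y := by
      refine setIntegral_mono_set (int_cont h.mc x r) (ae_of_all _ fun y => h.m0 y)
        (ae_of_all _ (closedBall_subset_closedBall (by linarith)))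
    have h4 : 256 / (κ * (r / 256)) * ∫ y in closedBall x (s + w), m y
        ≤ 65536 / (κ * r) * ∫ y in closedBall x r, m y := by
      have e : 256 / (κ * (r / 256)) = 65536 / (κ * r) := by
        field_simp
        norm_num
      rw [e]
      gcongr
    linarith
  -- the surface is connected
  have hconn : IsPreconnected (sphere x s) := by
    apply isPreconnected_sphere
    rw [rank_fin_fun]
    norm_num
  have hc := (uu_c1 h.gs κ hρ x).continuous
  have h5 := hconn.intermediate_value (a := z₁) (b := z₂)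
    (by rw [mem_sphere, dist_eq_norm]; exact hz1) (by rw [mem_sphere, dist_eq_norm]; exact hz2)
    hc.continuousOn
  obtain ⟨z, hz, hzu⟩ := h5 ⟨hu1, hu2⟩
  rw [mem_sphere, dist_eq_norm] at hz
  exact ⟨z, hz, hzu⟩

end Pool.Agent.Run7.h782.VL
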