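import Pool.Agent.Run7.h32.VL.Flx

/-!
Project VL, statement VL-6 (`StmTF`): two families of curves.
-/

set_option autoImplicit false

open MeasureTheory Set Metric Filter Topology
open scoped ContDiff
open H459R3.NS Pool.Agent.W268.NS Pool.Agent.Q67.VD

namespace Pool.Agent.Run7.h782.VL

open Pool.Agent.Q85.VL Pool.Agent.Run7.h32.VL
open Pool.Agent.Q151.CC (WD)

variable {κ ρ R : ℝ} {x : V} {f m : V → ℝ} {W : V → V} {g : V → ℝ}

/-- `v = g - g(x) + (κ / 2) |y - x|`. -/
noncomputable def vv (κ ρ : ℝ) (g : V → ℝ) (x y : V) : ℝ := g y - g x + κ / 2 * ds x ρ y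

lemma vv_c1 (hg : ContDiff ℝ 1 g) (κ : ℝ) (hρ : 0 < ρ) (x : V) : ContDiff ℝ 1 (vv κ ρ g x) := by
  unfold vv
  exact (hg.sub contDiff_const).add (contDiff_const.mul (ds_c1 x hρ))

lemma vv_fd (hg : ContDiff ℝ 1 g) (κ : ℝ) (hρ : 0 < ρ) (x y n : V) :
    fderiv ℝ (vv κ ρ g x) y n = fderiv ℝ g y n + κ / 2 * fderiv ℝ (ds x ρ) y n := by
  have h1 := (hg.differentiable one_ne_zero y).hasFDerivAt
  have h2 := ((ds_c1 x hρ).differentiable one_ne_zero y).hasFDerivAt
  have h : HasFDerivAt (vv κ ρ g x) _ y := (h1.sub_const (g x)).fun_add (h2.const_mul (κ / 2))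
  rw [h.fderiv]
  rfl

lemma vu (κ ρ : ℝ) (g : V → ℝ) (x y : V) : vv κ ρ g x y = uu κ ρ g x y + κ * ds x ρ y := by
  unfold uu vv
  ring

lemma vv_pos (h : LF κ R x f m W g) (hκ : 0 < κ) (hρ : 0 < ρ) {y : V}
    (hy : y ∈ closedBall x R) : 0 ≤ fderiv ℝ (vv κ ρ g x) y (W y) + m y := by
  rw [vv_fd h.gs κ hρ]
  have h1 := h.lo y hy
  have h2 := (abs_le.1 (ds_fd hρ x y (W y))).1
  have h3 := h.up y hy
  have h4 : κ / 2 * (-f y) ≤ κ / 2 * fderiv ℝ (ds x ρ) y (W y) := by
    gcongr
    linarith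
  have h5 := fnn h hy
  have : 0 ≤ κ / 2 * f y := by positivity
  linarith

/-- the derivative of a step -/
lemma stp_hd {F : V → ℝ} (hF : ContDiff ℝ 1 F) (c d : ℝ) (y : V) :
    HasFDerivAt (fun y => stp ((F y + c) / d)) ((stp' ((F y + c) / d) / d) • fderiv ℝ F y) y := by
  have h1 := (hF.differentiable one_ne_zero y).hasFDerivAt
  have h2 : HasFDerivAt (fun y => (F y + c) / d) (d⁻¹ • fderiv ℝ F y) y := by
    have h3 := (h1.add_const c).const_mul d⁻¹
    refine h3.congr_of_eventuallyEq (Filter.Eventually.of_forall fun z => ?_)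
    simp only
    rw [div_eq_inv_mul]
  have h4 := (stp_deriv ((F y + c) / d)).comp_hasFDerivAt y h2
  rw [smul_smul] at h4
  exact h4

lemma stp_cd {F : V → ℝ} (hF : ContDiff ℝ 1 F) (c d : ℝ) :
    ContDiff ℝ 1 (fun y => stp ((F y + c) / d)) :=
  stp_c1.comp ((hF.add contDiff_const).div_const _)

/-- `u` has Lipschitz constant `3 / 2` -/
lemma uu_lip (h : LF κ R x f m W g) (hκ : 0 < κ) (hκ1 : κ ≤ 1) (hρ : 0 < ρ) (y z : V) :
    |uu κ ρ g x y - uu κ ρ g x z| ≤ 3 / 2 * len (y - z) := by
  have h1 := h.lip y z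
  have h2 := ds_lip x hρ y z
  have h3 := len_nonneg (y - z)
  have e : uu κ ρ g x y - uu κ ρ g x z = (g y - g z) - κ / 2 * (ds x ρ y - ds x ρ z) := by
    unfold uu
    ring
  rw [e]
  calc |(g y - g z) - κ / 2 * (ds x ρ y - ds x ρ z)|
      ≤ |g y - g z| + |κ / 2 * (ds x ρ y - ds x ρ z)| := abs_sub _ _
    _ = |g y - g z| + κ / 2 * |ds x ρ y - ds x ρ z| := by
        rw [abs_mul, abs_of_pos (by positivity : 0 < κ / 2)]
    _ ≤ len (y - z) + 1 / 2 * len (y - z) := by
        gcongr
    _ = 3 / 2 * len (y - z) := by ring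

theorem stmTF : StmTF := by
  intro κ ρ R r s x z f m W g hκ hκ1 hρ h hr hrR hρr hs1 hs2 hzs huz
  obtain ⟨r', hr'⟩ : ∃ r', r' = r / 256 := ⟨_, rfl⟩
  rw [← hr']
  have hr'0 : 0 < r' := by rw [hr']; positivity
  have hr'r : r' ≤ r := by rw [hr']; linarith
  have hκr : 0 < κ * r := by positivity
  have hκr' : κ * r' = κ * r / 256 := by rw [hr']; ring
  -- the functions
  obtain ⟨qX, hqX⟩ : ∃ qX : V → ℝ, qX = fun y => (vv κ ρ g x y + -(κ * r / 256)) / (κ * r / 256) :=
    ⟨_, rfl⟩
  obtain ⟨qH, hqH⟩ : ∃ qH : V → ℝ,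
      qH = fun y => (uu κ ρ g x y + 5 * (κ * r) / 65536) / (κ * r / 32768) := ⟨_, rfl⟩
  have cT : ∀ s, ContDiff ℝ 1 fun y => stp (qT κ ρ g x s y) := fun s =>
    stp_c1.comp (qT_c1 h.gs κ hρ x s)
  have cP : ∀ s, ContDiff ℝ 1 fun y => stp (qP κ ρ g x s y) := fun s =>
    stp_c1.comp (qP_c1 h.gs κ hρ x s)
  have cX : ContDiff ℝ 1 fun y => stp (qX y) := by
    rw [hqX]; exact stp_cd (vv_c1 h.gs κ hρ x) _ _
  have cH : ContDiff ℝ 1 fun y => stp (qH y) := by
    rw [hqH]; exact stp_cd (uu_c1 h.gs κ hρ x) _ _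
  have dX : ∀ y, HasFDerivAt (fun y => stp (qX y))
      ((stp' (qX y) / (κ * r / 256)) • fderiv ℝ (vv κ ρ g x) y) y := by
    intro y; rw [hqX]; exact stp_hd (vv_c1 h.gs κ hρ x) _ _ y
  have dH : ∀ y, HasFDerivAt (fun y => stp (qH y))
      ((stp' (qH y) / (κ * r / 32768)) • fderiv ℝ (uu κ ρ g x) y) y := by
    intro y; rw [hqH]; exact stp_hd (uu_c1 h.gs κ hρ x) _ _ y
  have cX' : Continuous fun y => stp' (qX y) := by
    rw [hqX]
    exact stp'_cont.comp (((vv_c1 h.gs κ hρ x).add contDiff_const).div_const _).continuous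
  have cH' : Continuous fun y => stp' (qH y) := by
    rw [hqH]
    exact stp'_cont.comp (((uu_c1 h.gs κ hρ x).add contDiff_const).div_const _).continuous
  have cT' : ∀ s, Continuous fun y => stp' (qT κ ρ g x s y) := fun s =>
    stp'_cont.comp (qT_c1 h.gs κ hρ x s).continuous
  have cP' : ∀ s, Continuous fun y => stp' (qP κ ρ g x s y) := fun s =>
    stp'_cont.comp (qP_c1 h.gs κ hρ x s).continuous
  -- facts on the cut-off functions
  have hvu : ∀ y, uu κ ρ g x y ≤ vv κ ρ g x y := by
    intro y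
    rw [vu]
    have : 0 ≤ κ * ds x ρ y := mul_nonneg hκ.le (ds_nn x ρ y)
    linarith
  have hX1 : ∀ y, κ * r / 128 ≤ vv κ ρ g x y → stp (qX y) = 1 ∧ stp' (qX y) = 0 := by
    intro y hy
    have h1 : 1 ≤ qX y := by
      rw [hqX]
      simp only
      rw [le_div_iff₀ (by positivity)]
      linarith
    exact ⟨stp_right h1, stp'_right h1⟩
  have hX0 : ∀ y, vv κ ρ g x y ≤ κ * r / 256 → stp (qX y) = 0 ∧ stp' (qX y) = 0 := by
    intro y hy
    have h1 : qX y ≤ 0 := by
      rw [hqX]
      simp only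
      apply div_nonpos_of_nonpos_of_nonneg _ (by positivity)
      linarith
    exact ⟨stp_left h1, stp'_left h1⟩
  have hH1 : ∀ y, 0 ≤ uu κ ρ g x y → stp (qH y) = 1 ∧ stp' (qH y) = 0 := by
    intro y hy
    have h1 : 1 ≤ qH y := by
      rw [hqH]
      simp only
      rw [le_div_iff₀ (by positivity)]
      linarith
    exact ⟨stp_right h1, stp'_right h1⟩
  have hT1 : ∀ y, -(κ * r / 16) ≤ ww κ ρ g x y →
      stp (qT κ ρ g x r y) = 1 := by
    intro y hy
    apply stp_right
    unfold qT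
    rw [le_div_iff₀ (by positivity)]
    linarith
  have hT0 : ∀ s y, 0 < s → ww κ ρ g x y ≤ -(κ * s / 8) →
      stp (qT κ ρ g x s y) = 0 ∧ stp' (qT κ ρ g x s y) = 0 := by
    intro s y hs hy
    have h1 : qT κ ρ g x s y ≤ 0 := by
      unfold qT
      apply div_nonpos_of_nonpos_of_nonneg _ (by positivity)
      linarith
    exact ⟨stp_left h1, stp'_left h1⟩
  have hP1 : ∀ y, κ * r / 32 ≤ uu κ ρ g x y → stp (qP κ ρ g x r y) = 1 := by
    intro y hy
    apply stp_right
    unfold qP
    rw [le_div_iff₀ (by positivity)]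
    linarith
  have hP0 : ∀ y, uu κ ρ g x y ≤ κ * r / 64 → stp (qP κ ρ g x r y) = 0 := by
    intro y hy
    apply stp_left
    unfold qP
    apply div_nonpos_of_nonpos_of_nonneg _ (by positivity)
    linarith
  -- on the support of the flux at the scale `r'`
  have hin : ∀ y, stp (qT κ ρ g x r' y) ≠ 0 → stp' (qP κ ρ g x r' y) ≠ 0 →
      stp (qT κ ρ g x r y) = 1 ∧ stp (qX y) = 0 := by
    intro y h1 h2
    have h3 := qT_pos hκ hr'0 (stp_pos h1)
    have h4 := qP_lt hκ hr'0 (stp'_supp h2).2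
    refine ⟨hT1 y (by rw [hκr'] at h3; linarith), (hX0 y ?_).1⟩
    rw [vu]
    have h5 := uw κ ρ g x y
    rw [hκr'] at h3 h4
    linarith
  -- the test function
  set F : V → ℝ := fun y => stp (qT κ ρ g x r y) *
    ((1 - (1 - stp (qX y) * stp (qH y)) * (1 - stp (qT κ ρ g x r' y) * stp (qP κ ρ g x r' y)))
      - stp (qP κ ρ g x r y)) with hF
  have hFc : ContDiff ℝ 1 F := (cT r).mul ((contDiff_const.sub
    ((contDiff_const.sub (cX.mul cH)).mul (contDiff_const.sub ((cT r').mul (cP r'))))).sub (cP r))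
  have hFd : ∀ y, fderiv ℝ F y (W y) = stp (qT κ ρ g x r y) *
      (((1 - stp (qT κ ρ g x r' y) * stp (qP κ ρ g x r' y)) *
          (stp (qX y) * (stp' (qH y) / (κ * r / 32768) * fderiv ℝ (uu κ ρ g x) y (W y)) +
            stp (qH y) * (stp' (qX y) / (κ * r / 256) * fderiv ℝ (vv κ ρ g x) y (W y)))
        + (1 - stp (qX y) * stp (qH y)) *
          (stp (qT κ ρ g x r' y) *
            (stp' (qP κ ρ g x r' y) / (κ * r' / 64) * fderiv ℝ (uu κ ρ g x) y (W y)) +
            stp (qP κ ρ g x r' y) *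
            (stp' (qT κ ρ g x r' y) / (κ * r' / 16) * fderiv ℝ (ww κ ρ g x) y (W y))))
        - stp' (qP κ ρ g x r y) / (κ * r / 64) * fderiv ℝ (uu κ ρ g x) y (W y))
      + ((1 - (1 - stp (qX y) * stp (qH y)) *
          (1 - stp (qT κ ρ g x r' y) * stp (qP κ ρ g x r' y))) - stp (qP κ ρ g x r y)) *
        (stp' (qT κ ρ g x r y) / (κ * r / 16) * fderiv ℝ (ww κ ρ g x) y (W y)) := by
    intro y
    have h1 : HasFDerivAt F _ y := (TT_hd h.gs κ hρ x r y).fun_mul
      ((((((dX y).fun_mul (dH y)).const_sub 1).fun_mul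
        (((TT_hd h.gs κ hρ x r' y).fun_mul (PS_hd h.gs κ hρ x r' y)).const_sub 1)).const_sub
          1).fun_sub (PS_hd h.gs κ hρ x r y))
    rw [h1.fderiv]
    simp only [add_apply, smul_apply, sub_apply, neg_apply, smul_eq_mul]
    ring
  have hFs : ∀ y, F y ≠ 0 → y ∈ closedBall x r := by
    intro y hy
    have h1 : stp (qT κ ρ g x r y) ≠ 0 := left_ne_zero_of_mul hy
    have h2 : uu κ ρ g x y < κ * r / 32 := by
      by_contra hc
      push Not at hc
      apply right_ne_zero_of_mul hy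
      rw [hP1 y hc, (hX1 y ((by linarith : κ * r / 128 ≤ uu κ ρ g x y).trans (hvu y))).1,
        (hH1 y (by linarith)).1]
      ring
    exact in_ball hκ hr (qT_pos hκ hr (stp_pos h1)) h2
  have h0 : ∫ y in closedBall x R, fderiv ℝ F y (W y) = 0 := h.wd.div F hFc (ts_sub hrR hFs)
  -- the values
  have hPge : ∀ y, stp (qP κ ρ g x r y) ≤ 1 - (1 - stp (qX y) * stp (qH y)) *
      (1 - stp (qT κ ρ g x r' y) * stp (qP κ ρ g x r' y)) := by
    intro y
    have a1 := stp_nn (qX y)
    have a2 := stp_le (qX y)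
    have a3 := stp_nn (qH y)
    have a4 := stp_le (qH y)
    have a5 := stp_nn (qT κ ρ g x r' y)
    have a6 := stp_le (qT κ ρ g x r' y)
    have a7 := stp_nn (qP κ ρ g x r' y)
    have a8 := stp_le (qP κ ρ g x r' y)
    have a9 := stp_le (qP κ ρ g x r y)
    rcases le_total (uu κ ρ g x y) (κ * r / 64) with hc | hc
    · rw [hP0 y hc]
      have b1 : stp (qX y) * stp (qH y) ≤ 1 := mul_le_one₀ a2 a3 a4
      have b2 : 0 ≤ stp (qX y) * stp (qH y) := mul_nonneg a1 a3
      have b3 : stp (qT κ ρ g x r' y) * stp (qP κ ρ g x r' y) ≤ 1 := mul_le_one₀ a6 a7 a8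
      have b4 : 0 ≤ stp (qT κ ρ g x r' y) * stp (qP κ ρ g x r' y) := mul_nonneg a5 a7
      nlinarith
    · rw [(hX1 y ((by linarith : κ * r / 128 ≤ uu κ ρ g x y).trans (hvu y))).1,
        (hH1 y (by linarith)).1]
      linarith
  -- the error
  set E : V → ℝ := fun y => stp (qT κ ρ g x r y) *
      ((1 - stp (qT κ ρ g x r' y) * stp (qP κ ρ g x r' y)) *
          (stp (qX y) * (stp' (qH y) / (κ * r / 32768) * m y) +
            stp (qH y) * (stp' (qX y) / (κ * r / 256) * m y))
        + (1 - stp (qX y) * stp (qH y)) *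
          (stp (qT κ ρ g x r' y) * (stp' (qP κ ρ g x r' y) / (κ * r' / 64) * m y) +
            stp (qP κ ρ g x r' y) * (stp' (qT κ ρ g x r' y) / (κ * r' / 16) * m y)))
      + ((1 - (1 - stp (qX y) * stp (qH y)) *
          (1 - stp (qT κ ρ g x r' y) * stp (qP κ ρ g x r' y))) - stp (qP κ ρ g x r y)) *
        (stp' (qT κ ρ g x r y) / (κ * r / 16) * m y) with hE
  have kT := fun s => (cT s).continuous
  have kP := fun s => (cP s).continuous
  have kX := cX.continuous
  have kH := cH.continuous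
  have hEc : Continuous E := by
    refine ((kT r).mul ((((continuous_const.sub ((kT r').mul (kP r'))).mul
      ((kX.mul ((cH'.div_const _).mul h.mc)).add (kH.mul ((cX'.div_const _).mul h.mc))))).add
      ((continuous_const.sub (kX.mul kH)).mul
        (((kT r').mul (((cP' r').div_const _).mul h.mc)).add
          ((kP r').mul (((cT' r').div_const _).mul h.mc)))))).add
      (((continuous_const.sub ((continuous_const.sub (kX.mul kH)).mul
        (continuous_const.sub ((kT r').mul (kP r'))))).sub (kP r)).mul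
          (((cT' r).div_const _).mul h.mc))
  have hE1 : ∫ y in closedBall x R, E y ≤ ∫ y in closedBall x r, 524288 / (κ * r) * m y := by
    refine int_le_small hEc (h.mc.const_mul _) hrR ?_ ?_
    · intro y _
      have a1 := stp_nn (qX y)
      have a2 := stp_le (qX y)
      have a3 := stp_nn (qH y)
      have a4 := stp_le (qH y)
      have a5 := stp_nn (qT κ ρ g x r' y)
      have a6 := stp_le (qT κ ρ g x r' y)
      have a7 := stp_nn (qP κ ρ g x r' y)
      have a8 := stp_le (qP κ ρ g x r' y)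
      have a9 := stp_le (qP κ ρ g x r y)
      have a9' := stp_nn (qP κ ρ g x r y)
      have a10 := stp_nn (qT κ ρ g x r y)
      have a11 := stp_le (qT κ ρ g x r y)
      have d1 := stp'_nn (qX y)
      have d2 := stp'_le (qX y)
      have d3 := stp'_nn (qH y)
      have d4 := stp'_le (qH y)
      have d5 := stp'_nn (qT κ ρ g x r' y)
      have d6 := stp'_le (qT κ ρ g x r' y)
      have d7 := stp'_nn (qP κ ρ g x r' y)
      have d8 := stp'_le (qP κ ρ g x r' y)
      have d9 := stp'_nn (qT κ ρ g x r y)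
      have d10 := stp'_le (qT κ ρ g x r y)
      have hm := h.m0 y
      have b1 : stp (qX y) * stp (qH y) ≤ 1 := mul_le_one₀ a2 a3 a4
      have b2 : 0 ≤ stp (qX y) * stp (qH y) := mul_nonneg a1 a3
      have b3 : stp (qT κ ρ g x r' y) * stp (qP κ ρ g x r' y) ≤ 1 := mul_le_one₀ a6 a7 a8
      have b4 : 0 ≤ stp (qT κ ρ g x r' y) * stp (qP κ ρ g x r' y) := mul_nonneg a5 a7
      have c1 : 0 ≤ 1 - stp (qX y) * stp (qH y) := by linarith
      have c2 : 0 ≤ 1 - stp (qT κ ρ g x r' y) * stp (qP κ ρ g x r' y) := by linarith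
      have c3 : 0 ≤ 1 - (1 - stp (qX y) * stp (qH y)) *
          (1 - stp (qT κ ρ g x r' y) * stp (qP κ ρ g x r' y)) - stp (qP κ ρ g x r y) := by
        have := hPge y
        linarith
      have c4 : 1 - (1 - stp (qX y) * stp (qH y)) *
          (1 - stp (qT κ ρ g x r' y) * stp (qP κ ρ g x r' y)) - stp (qP κ ρ g x r y) ≤ 1 := by
        have := mul_nonneg c1 c2
        linarith
      have e1 : E y ≤ 1 * (1 * (1 * (2 / (κ * r / 32768) * m y) + 1 * (2 / (κ * r / 256) * m y))
          + 1 * (1 * (2 / (κ * r' / 64) * m y) + 1 * (2 / (κ * r' / 16) * m y)))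
          + 1 * (2 / (κ * r / 16) * m y) := by
        simp only [hE]
        gcongr
        · linarith
        · linarith
      refine e1.trans ?_
      rw [hκr']
      have e2 : 1 * (1 * (1 * (2 / (κ * r / 32768) * m y) + 1 * (2 / (κ * r / 256) * m y))
          + 1 * (1 * (2 / (κ * r / 256 / 64) * m y) + 1 * (2 / (κ * r / 256 / 16) * m y)))
          + 1 * (2 / (κ * r / 16) * m y) = 107040 / (κ * r) * m y := by
        field_simp
        ring
      rw [e2]
      gcongr
      norm_num
    · intro y _ hy2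
      apply le_of_eq
      have h1 : ww κ ρ g x y ≤ -(κ * r / 8) ∨ κ * r / 32 ≤ uu κ ρ g x y := by
        by_contra hc
        push Not at hc
        exact hy2 (in_ball hκ hr hc.1 hc.2)
      rcases h1 with h1 | h1
      · simp only [hE]
        rw [(hT0 r y hr h1).1, (hT0 r y hr h1).2]
        ring
      · have h2 := hX1 y ((by linarith : κ * r / 128 ≤ uu κ ρ g x y).trans (hvu y))
        have h3 := hH1 y (by linarith)
        simp only [hE]
        rw [h2.1, h2.2, h3.1, h3.2, hP1 y h1]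
        ring
  -- the gain
  set L : V → ℝ := fun y => stp (qT κ ρ g x r y) *
      ((1 - stp (qT κ ρ g x r' y) * stp (qP κ ρ g x r' y)) *
          (stp (qX y) * (stp' (qH y) / (κ * r / 32768) * (κ / 2 * f y)))) with hL
  have hLc : Continuous L :=
    (kT r).mul ((continuous_const.sub ((kT r').mul (kP r'))).mul
      (kX.mul ((cH'.div_const _).mul (h.fc.const_mul _))))
  -- the pointwise inequality
  have key : ∀ y ∈ closedBall x R, L y + Pool.Agent.Q85.VL.pr κ ρ g x W m r' y
      ≤ (fderiv ℝ F y (W y) + Pool.Agent.Q85.VL.pr κ ρ g x W m r y) + E y := by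
    intro y hy
    have hc3 : 0 ≤ 1 - (1 - stp (qX y) * stp (qH y)) *
        (1 - stp (qT κ ρ g x r' y) * stp (qP κ ρ g x r' y)) - stp (qP κ ρ g x r y) := by
      have := hPge y
      linarith
    have hin' := hin y
    rw [hFd, pr_eq, pr_eq]
    simp only [hE, hL]
    have a1 := stp_nn (qX y)
    have a2 := stp_le (qX y)
    have a3 := stp_nn (qH y)
    have a4 := stp_le (qH y)
    have a5 := stp_nn (qT κ ρ g x r' y)
    have a6 := stp_le (qT κ ρ g x r' y)
    have a7 := stp_nn (qP κ ρ g x r' y)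
    have a8 := stp_le (qP κ ρ g x r' y)
    have a9 := stp_le (qP κ ρ g x r y)
    have a10 := stp_nn (qT κ ρ g x r y)
    have a11 := stp_le (qT κ ρ g x r y)
    have d1 := stp'_nn (qX y)
    have d3 := stp'_nn (qH y)
    have d5 := stp'_nn (qT κ ρ g x r' y)
    have d7 := stp'_nn (qP κ ρ g x r' y)
    have d8 := stp'_nn (qP κ ρ g x r y)
    have d9 := stp'_nn (qT κ ρ g x r y)
    have hm := h.m0 y
    have p1 := ww_pos h hκ hρ hy
    have p2 := uu_pos h hκ hρ hy
    have p3 := vv_pos h hκ hρ hy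
    have p4 := uu_lo h hκ hρ hy
    have b1 : stp (qX y) * stp (qH y) ≤ 1 := mul_le_one₀ a2 a3 a4
    have b3 : stp (qT κ ρ g x r' y) * stp (qP κ ρ g x r' y) ≤ 1 := mul_le_one₀ a6 a7 a8
    have c1 : 0 ≤ 1 - stp (qX y) * stp (qH y) := by linarith
    have c2 : 0 ≤ 1 - stp (qT κ ρ g x r' y) * stp (qP κ ρ g x r' y) := by linarith
    generalize fderiv ℝ (uu κ ρ g x) y (W y) = U at *
    generalize fderiv ℝ (ww κ ρ g x) y (W y) = Z at *
    generalize fderiv ℝ (vv κ ρ g x) y (W y) = Q at *
    generalize stp (qX y) = X at *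
    generalize stp (qH y) = H at *
    generalize stp (qT κ ρ g x r' y) = T' at *
    generalize stp (qP κ ρ g x r' y) = P' at *
    generalize stp (qT κ ρ g x r y) = T at *
    generalize stp (qP κ ρ g x r y) = P at *
    generalize stp' (qX y) = dX at *
    generalize stp' (qH y) = dH at *
    generalize stp' (qT κ ρ g x r' y) = dT' at *
    generalize stp' (qP κ ρ g x r' y) = dP' at *
    generalize stp' (qT κ ρ g x r y) = dT at *
    generalize stp' (qP κ ρ g x r y) = dP at *
    -- the flux at the scale `r'`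
    have g1 : T' * (dP' / (κ * r' / 64) * (U + m y))
        = T * ((1 - X * H) * (T' * (dP' / (κ * r' / 64) * (U + m y)))) := by
      by_cases e1 : T' = 0
      · rw [e1]; ring
      · by_cases e2 : dP' = 0
        · rw [e2]; ring
        · obtain ⟨e3, e4⟩ := hin' e1 e2
          rw [e3, e4]; ring
    have g2 : T * ((1 - T' * P') * (X * (dH / (κ * r / 32768) * (κ / 2 * f y))))
        ≤ T * ((1 - T' * P') * (X * (dH / (κ * r / 32768) * (U + m y)))) := by
      gcongr
    have g3 : 0 ≤ T * ((1 - T' * P') * (H * (dX / (κ * r / 256) * (Q + m y)))) := by positivity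
    have g4 : 0 ≤ T * ((1 - X * H) * (P' * (dT' / (κ * r' / 16) * (Z + m y)))) := by positivity
    have g5 : 0 ≤ (1 - (1 - X * H) * (1 - T' * P') - P) * (dT / (κ * r / 16) * (Z + m y)) := by
      positivity
    have g6 : 0 ≤ T * (dP / (κ * r / 64) * m y) := by positivity
    rw [g1]
    linarith [g2, g3, g4, g5, g6]
  have i1 : IntegrableOn (fun y => fderiv ℝ F y (W y)) (closedBall x R) :=
    int_cont (fdW_cont hFc h.wd.cont) x R
  have i2 := int_cont (pr_cont h hρ r) x R
  have i3 := int_cont (pr_cont h hρ r') x R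
  have i4 := int_cont hEc x R
  have i5 := int_cont hLc x R
  have h1 : ∫ y in closedBall x R, (L y + Pool.Agent.Q85.VL.pr κ ρ g x W m r' y)
      ≤ ∫ y in closedBall x R,
      ((fderiv ℝ F y (W y) + Pool.Agent.Q85.VL.pr κ ρ g x W m r y) + E y) :=
    setIntegral_mono_on (i5.add i3) ((i1.add i2).add i4) isClosed_closedBall.measurableSet key
  have h2 : ∫ y in closedBall x R,
      ((fderiv ℝ F y (W y) + Pool.Agent.Q85.VL.pr κ ρ g x W m r y) + E y)
      = AA κ ρ R g x W m r + ∫ y in closedBall x R, E y := by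
    rw [int_split i1 i2 i4, h0, zero_add]
    rfl
  have h3 : ∫ y in closedBall x R, (L y + Pool.Agent.Q85.VL.pr κ ρ g x W m r' y)
      = (∫ y in closedBall x R, L y) + AA κ ρ R g x W m r' := by
    rw [integral_add i5 i3]
    rfl
  rw [h2, h3] at h1
  -- the lower bound
  have hsub : closedBall z (κ / 524288 * r) ⊆ closedBall x R := by
    intro y hy
    rw [mem_closedBall, dist_eq_norm] at hy ⊢
    have e1 : y - x = (y - z) + (z - x) := by abel
    have e2 : ‖y - x‖ ≤ ‖y - z‖ + ‖z - x‖ := by rw [e1]; exact norm_add_le _ _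
    rw [hzs] at e2
    have e3 : κ / 524288 * r ≤ r / 524288 := by nlinarith
    linarith
  have h4 : ∫ y in closedBall z (κ / 524288 * r), 512 / r * f y ≤ ∫ y in closedBall x R, L y := by
    have e0 : ∫ y in closedBall z (κ / 524288 * r), 512 / r * f y
        ≤ ∫ y in closedBall z (κ / 524288 * r), L y := by
      refine setIntegral_mono_on (int_cont (h.fc.const_mul _) _ _) (int_cont hLc _ _)
        isClosed_closedBall.measurableSet fun y hy => ?_
      have hyR := hsub hy
      have hf := fnn h hyR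
      rw [mem_closedBall, dist_eq_norm] at hy
      have e3 : κ / 524288 * r ≤ r / 524288 := by nlinarith
      have e4 : len (y - z) ≤ κ * r / 262144 := (len_le_two _).trans (by linarith)
      have e5 := abs_le.1 (uu_lip h hκ hκ1 hρ y z)
      rw [huz] at e5
      have e6 : ‖y - x‖ ≤ r / 32 + r / 524288 := by
        have e1 : y - x = (y - z) + (z - x) := by abel
        have e2 : ‖y - x‖ ≤ ‖y - z‖ + ‖z - x‖ := by rw [e1]; exact norm_add_le _ _
        linarith
      have e7 : r / 64 - r / 524288 ≤ ‖y - x‖ := by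
        have e1 : z - x = (y - x) - (y - z) := by abel
        have e2 : ‖z - x‖ ≤ ‖y - x‖ + ‖y - z‖ := by rw [e1]; exact norm_sub_le _ _
        linarith
      have e8 : ds x ρ y ≤ 2 * ‖y - x‖ + ρ := (ds_le x hρ.le y).trans (by
        have := len_le_two (y - x)
        linarith)
      have e9 := norm_le_ds x ρ y
      have u1 : uu κ ρ g x y ≤ -(29 / 8 * (κ * r) / 65536) := by linarith [e5.2]
      have u2 : -(35 / 8 * (κ * r) / 65536) ≤ uu κ ρ g x y := by linarith [e5.1]
      have w0 := uw κ ρ g x y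
      have w1 : ww κ ρ g x y ≤ -(κ * r' / 8) := by
        rw [hκr']
        have : κ / 4 * (r / 64 - r / 524288) ≤ κ / 4 * ds x ρ y := by
          gcongr
          linarith
        linarith
      have w2 : -(κ * r / 16) ≤ ww κ ρ g x y := by
        have : κ / 4 * ds x ρ y ≤ κ / 4 * (r / 12) := by
          gcongr
          linarith
        linarith
      have v1 : κ * r / 128 ≤ vv κ ρ g x y := by
        rw [vu]
        have : κ * (r / 64 - r / 524288) ≤ κ * ds x ρ y := by
          gcongr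
          linarith
        linarith
      have q1 : 5 / 16 ≤ qH y := by
        rw [hqH]
        simp only
        rw [le_div_iff₀ (by positivity)]
        linarith
      have q2 : qH y ≤ 11 / 16 := by
        rw [hqH]
        simp only
        rw [div_le_iff₀ (by positivity)]
        linarith
      have q3 : 1 ≤ stp' (qH y) := by
        rw [stp'_mid (by linarith) (by linarith)]
        nlinarith
      simp only [hL]
      rw [hT1 y w2, (hT0 r' y hr'0 w1).1, (hX1 y v1).1]
      have e10 : 512 / r * f y ≤ 1 / (κ * r / 32768) * (κ / 2 * f y) := by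
        have : 1 / (κ * r / 32768) * (κ / 2 * f y) = 16384 / r * f y := by
          field_simp
          ring
        rw [this]
        gcongr
        norm_num
      calc 512 / r * f y ≤ 1 / (κ * r / 32768) * (κ / 2 * f y) := e10
        _ ≤ stp' (qH y) / (κ * r / 32768) * (κ / 2 * f y) := by gcongr
        _ = _ := by ring
    refine e0.trans ?_
    refine setIntegral_mono_set i5 ?_ (ae_of_all _ hsub)
    rw [Filter.EventuallyLE, ae_restrict_iff' isClosed_closedBall.measurableSet]
    refine ae_of_all _ fun y hy => ?_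
    simp only [hL, Pi.zero_apply]
    have a1 := stp_nn (qX y)
    have a2 := stp_nn (qT κ ρ g x r y)
    have a5 := stp_nn (qT κ ρ g x r' y)
    have a6 := stp_le (qT κ ρ g x r' y)
    have a7 := stp_nn (qP κ ρ g x r' y)
    have a8 := stp_le (qP κ ρ g x r' y)
    have d3 := stp'_nn (qH y)
    have hf := fnn h hy
    have b3 : stp (qT κ ρ g x r' y) * stp (qP κ ρ g x r' y) ≤ 1 := mul_le_one₀ a6 a7 a8
    have c2 : 0 ≤ 1 - stp (qT κ ρ g x r' y) * stp (qP κ ρ g x r' y) := by linarith
    positivity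
  rw [integral_const_mul] at h4 hE1
  have h5 : 512 / r * ∫ y in closedBall z (κ / 524288 * r), f y
      ≤ AA κ ρ R g x W m r - AA κ ρ R g x W m r' + 524288 / (κ * r) * ∫ y in closedBall x r, m y := by
    linarith
  have h6 : r / 512 * (512 / r * ∫ y in closedBall z (κ / 524288 * r), f y)
      ≤ r / 512 * (AA κ ρ R g x W m r - AA κ ρ R g x W m r'
        + 524288 / (κ * r) * ∫ y in closedBall x r, m y) := by gcongr
  have h7 : r / 512 * (512 / r * ∫ y in closedBall z (κ / 524288 * r), f y)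
      = ∫ y in closedBall z (κ / 524288 * r), f y := by
    field_simp
  have h8 : r / 512 * (AA κ ρ R g x W m r - AA κ ρ R g x W m r'
        + 524288 / (κ * r) * ∫ y in closedBall x r, m y)
      = r / 512 * (AA κ ρ R g x W m r - AA κ ρ R g x W m r')
        + 1024 / κ * ∫ y in closedBall x r, m y := by
    field_simp
    ring
  rw [h7, h8] at h6
  exact h6

end Pool.Agent.Run7.h782.VL
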